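import Pool.Agent.Helper48.ZE.SEL
import Pool.Agent.Helper60.ZE.PrimesEl

/-!
# Choice of `q`, uniform form
-/

set_option autoImplicit false

namespace Pool.Agent.Helper84.ZE

open Finset Helper48.ZEF Pool.Agent.Helper18.ZE

/-- the choice of `q` with explicit conditions -/
theorem exists_prime_core (r B Q : ℕ) (T : Finset ℕ) (N : ℕ) (hQ : Q.Prime)
    (hrQ : 2 * (r + 1) ≤ Q)
    (hp : (Q : ℝ) ≤ Real.log Q * ((Finset.Ioc Q (4 * Q)).filter Nat.Prime).card)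
    (hl : Real.log Q * (2 * (6 * ((r : ℝ) + 1) ^ 2 + B + 1)) ≤ (Q : ℝ) ^ (1 / 9 : ℝ))
    (hT : ∀ n ∈ T, n < Q) (hTQ : Q ≤ T.card ^ 9) (hN : N ≠ 0)
    (hNB : (∏ p ∈ N.primeFactors, p : ℕ) ≤ Q ^ B) :
    ∃ q : ℕ, q.Prime ∧ Q < q ∧ q ≤ 4 * Q ∧ ¬ q ∣ N ∧
      ∃ n : Fin (r + 1) → ℕ, (∀ i, n i ∈ T) ∧ Dense r Q q n := by
  classical
  set E : ℝ := 6 * ((r : ℝ) + 1) ^ 2 + B + 1 with hE
  have hEpos : 0 < E := by positivity
  have h2Q : 2 ≤ Q := hQ.two_le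
  have hQR : (1:ℝ) < Q := by exact_mod_cast h2Q
  have hQpos : (0:ℝ) < Q := by linarith
  have hlogpos : 0 < Real.log Q := Real.log_pos hQR
  set P := ((Finset.Ioc Q (4 * Q)).filter Nat.Prime).card with hP
  have hT0 : 0 < T.card := by
    by_contra h
    have : T.card = 0 := by omega
    rw [this] at hTQ
    simp at hTQ
    omega
  have hTR : (0:ℝ) < T.card := by exact_mod_cast hT0
  have hroot : (Q:ℝ) ^ (1 / 9 : ℝ) ≤ T.card := by
    have h1 : (Q:ℝ) ≤ (T.card : ℝ) ^ 9 := by exact_mod_cast hTQ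
    calc (Q:ℝ) ^ (1 / 9 : ℝ) ≤ ((T.card : ℝ) ^ 9) ^ (1 / 9 : ℝ) :=
          Real.rpow_le_rpow hQpos.le h1 (by norm_num)
      _ = T.card := by
          rw [← Real.rpow_natCast, ← Real.rpow_mul hTR.le]
          norm_num
  have hD := Helper48.ZE.card_dvd_le (Q := Q) (N := N) (B := B) h2Q hN hNB
  have hcount : 3 * (2 * (r + 1) ^ 2 * Q / T.card)
        + ((Finset.Ioc Q (4 * Q)).filter (fun q => q.Prime ∧ q ∣ N)).card < P := by
    have h1 : ((2 * (r + 1) ^ 2 * Q / T.card : ℕ) : ℝ) ≤ 2 * ((r:ℝ) + 1) ^ 2 * Q / T.card := by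
      have := @Nat.cast_div_le ℝ _ _ _ (2 * (r + 1) ^ 2 * Q) T.card
      push_cast at this ⊢
      exact this
    set U := (Q:ℝ) ^ (1 / 9 : ℝ) with hU
    have hUpos : 0 < U := by positivity
    have h2 : 2 * ((r:ℝ) + 1) ^ 2 * Q / T.card ≤ 2 * ((r:ℝ) + 1) ^ 2 * Q / U :=
      div_le_div_of_nonneg_left (by positivity) hUpos hroot
    have hUQ : U ≤ Q := by
      rw [hU]
      calc (Q:ℝ) ^ (1 / 9 : ℝ) ≤ (Q:ℝ) ^ (1 : ℝ) :=
            Real.rpow_le_rpow_of_exponent_le hQR.le (by norm_num)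
        _ = Q := Real.rpow_one _
    have h3 : (B:ℝ) ≤ B * (Q / U) := by
      have : 1 ≤ (Q:ℝ) / U := by rw [le_div_iff₀ hUpos]; linarith
      nlinarith [Nat.cast_nonneg (α := ℝ) B]
    have h4 : (Q:ℝ) / Real.log Q ≤ P := by
      rw [div_le_iff₀ hlogpos]; linarith
    have h5 : E * (Q / U) < Q / Real.log Q := by
      rw [lt_div_iff₀ hlogpos]
      have h7 : E * (Q / U) * Real.log Q = (E * Real.log Q) / U * Q := by ring
      rw [h7]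
      have h8 : (E * Real.log Q) / U < 1 := by
        rw [div_lt_one hUpos]
        have : 0 < E * Real.log Q := by positivity
        nlinarith
      nlinarith
    have h9 : (3 * (2 * (r + 1) ^ 2 * Q / T.card : ℕ) : ℝ) + B < P := by
      calc (3 * (2 * (r + 1) ^ 2 * Q / T.card : ℕ) : ℝ) + B
          ≤ 3 * (2 * ((r:ℝ) + 1) ^ 2 * Q / U) + B * (Q / U) := by linarith
        _ = (6 * ((r:ℝ) + 1) ^ 2 + B) * (Q / U) := by ring
        _ ≤ E * (Q / U) := by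
            apply mul_le_mul_of_nonneg_right _ (by positivity)
            rw [hE]; linarith
        _ < Q / Real.log Q := h5
        _ ≤ P := h4
    have h10 : 3 * (2 * (r + 1) ^ 2 * Q / T.card) + B < P := by exact_mod_cast h9
    omega
  obtain ⟨q, hq1, hq2, hq3, hq4, b, hb⟩ := choice_q Q (r + 1) N hQ (by omega) hrQ T hT hT0 hcount
  refine ⟨q, hq1, hq2, hq3, hq4, ?_⟩
  choose! n hn using hb
  refine ⟨fun i => n i.val, fun i => (hn i.val i.isLt).1, b, fun i => (hn i.val i.isLt).2⟩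

/-- `2 x ^ 2 ≤ exp (x / 9)` for large `x` -/
lemma two_sq_le_exp {x : ℝ} (hx : 8748 ≤ x) : 2 * x ^ 2 ≤ Real.exp (x / 9) := by
  have h := Real.pow_div_factorial_le_exp (x / 9) (by linarith) 3
  refine le_trans ?_ h
  have : (Nat.factorial 3 : ℝ) = 6 := by norm_num [Nat.factorial]
  rw [this, div_pow, le_div_iff₀ (by norm_num), le_div_iff₀ (by norm_num)]
  nlinarith [sq_nonneg x]

/-- SEL, uniform form, from the lower bound for the number of primes -/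
theorem exists_primeU_of (hC : ∃ x0 : ℕ, ∀ x : ℕ, x0 ≤ x →
    (x : ℝ) ≤ Real.log x * ((Finset.Ioc x (4 * x)).filter Nat.Prime).card) :
    ∃ D : ℕ, ∀ (B r Q : ℕ) (T : Finset ℕ) (N : ℕ), 1 ≤ B → r + 1 = 2048 * B →
    ((B + 1 : ℕ) : ℝ) ^ (D * B) ≤ Real.log Q → Q.Prime → (∀ n ∈ T, n < Q) →
    Q ≤ T.card ^ 9 → N ≠ 0 → (∏ p ∈ N.primeFactors, p : ℕ) ≤ Q ^ (2 * B) →
    ∃ q : ℕ, q.Prime ∧ Q < q ∧ q ≤ 4 * Q ∧ ¬ q ∣ N ∧
      ∃ n : Fin (r + 1) → ℕ, (∀ i, n i ∈ T) ∧ Dense r Q q n := by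
  obtain ⟨x0, hx0⟩ := hC
  refine ⟨x0 + 30, ?_⟩
  intro B r Q T N hB hr hlog hQ hT hTQ hN hNB
  have hQR : (1:ℝ) < Q := by exact_mod_cast hQ.one_lt
  have hQpos : (0:ℝ) < Q := by linarith
  have hB1 : (2:ℝ) ≤ ((B + 1 : ℕ) : ℝ) := by exact_mod_cast (by omega : 2 ≤ B + 1)
  -- `(B + 1) ^ (x0 + 30) ≤ log Q`
  have h1 : ((B + 1 : ℕ) : ℝ) ^ (x0 + 30) ≤ Real.log Q := by
    refine le_trans (pow_le_pow_right₀ (by linarith) ?_) hlog
    exact Nat.le_mul_of_pos_right _ (by omega)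
  have h30 : ((B + 1 : ℕ) : ℝ) ^ 30 ≤ Real.log Q := by
    refine le_trans (pow_le_pow_right₀ (by linarith) ?_) h1
    omega
  have hlow : (2:ℝ) ^ 30 ≤ Real.log Q :=
    le_trans (pow_le_pow_left₀ (by norm_num) hB1 30) h30
  have hQlog : Real.log Q ≤ Q := by
    have := Real.log_le_sub_one_of_pos hQpos
    linarith
  have hx : x0 ≤ Q := by
    have h2 : (2:ℝ) ^ x0 ≤ Real.log Q := by
      refine le_trans ?_ h1
      refine le_trans (pow_le_pow_left₀ (by norm_num) hB1 x0) ?_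
      exact pow_le_pow_right₀ (by linarith) (by omega)
    have h3 : (x0 : ℝ) ≤ (2:ℝ) ^ x0 := by exact_mod_cast (Nat.lt_two_pow_self (n := x0)).le
    exact_mod_cast h3.trans (h2.trans hQlog)
  have hb : ((B + 1 : ℕ) : ℝ) = (B : ℝ) + 1 := by push_cast; ring
  have hBR : (1 : ℝ) ≤ B := by exact_mod_cast hB
  have hE : 6 * ((r : ℝ) + 1) ^ 2 + (2 * B : ℕ) + 1 ≤ Real.log Q := by
    refine le_trans ?_ h30
    have hr' : (r : ℝ) + 1 = 2048 * B := by exact_mod_cast hr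
    rw [hr', hb]
    have h4 : ((B : ℝ) + 1) ^ 30 = ((B : ℝ) + 1) ^ 28 * ((B : ℝ) + 1) ^ 2 := by ring
    have h5 : (2:ℝ) ^ 28 ≤ ((B : ℝ) + 1) ^ 28 := pow_le_pow_left₀ (by norm_num) (by linarith) 28
    have h6 : (2:ℝ) ^ 28 * ((B : ℝ) + 1) ^ 2 ≤ ((B : ℝ) + 1) ^ 28 * ((B : ℝ) + 1) ^ 2 :=
      mul_le_mul_of_nonneg_right h5 (by positivity)
    rw [h4]
    refine le_trans ?_ h6
    push_cast
    nlinarith
  have hlogpos : 0 < Real.log Q := Real.log_pos hQR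
  refine exists_prime_core r (2 * B) Q T N hQ ?_ (hx0 Q hx) ?_ hT hTQ hN hNB
  · -- `2 (r + 1) ≤ Q`
    have h7 : (2 * ((r : ℝ) + 1)) ≤ Q := by
      have hr0 : (0:ℝ) ≤ r := Nat.cast_nonneg r
      have : 2 * ((r : ℝ) + 1) ≤ 6 * ((r : ℝ) + 1) ^ 2 + (2 * B : ℕ) + 1 := by
        have : (0:ℝ) ≤ ((2 * B : ℕ) : ℝ) := Nat.cast_nonneg _
        nlinarith
      linarith
    exact_mod_cast h7
  · have h8 : (Q : ℝ) ^ (1 / 9 : ℝ) = Real.exp (Real.log Q / 9) := by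
      rw [Real.rpow_def_of_pos hQpos]
      congr 1
      ring
    rw [h8]
    have h9 := two_sq_le_exp (x := Real.log Q) (le_trans (by norm_num) hlow)
    refine le_trans ?_ h9
    have : Real.log Q * (2 * (6 * ((r : ℝ) + 1) ^ 2 + (2 * B : ℕ) + 1))
        ≤ Real.log Q * (2 * Real.log Q) :=
      mul_le_mul_of_nonneg_left (by linarith) hlogpos.le
    nlinarith

/-- SEL, uniform form -/
theorem exists_primeU : ∃ D : ℕ, ∀ (B r Q : ℕ) (T : Finset ℕ) (N : ℕ), 1 ≤ B → r + 1 = 2048 * B →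
    ((B + 1 : ℕ) : ℝ) ^ (D * B) ≤ Real.log Q → Q.Prime → (∀ n ∈ T, n < Q) →
    Q ≤ T.card ^ 9 → N ≠ 0 → (∏ p ∈ N.primeFactors, p : ℕ) ≤ Q ^ (2 * B) →
    ∃ q : ℕ, q.Prime ∧ Q < q ∧ q ≤ 4 * Q ∧ ¬ q ∣ N ∧ ∃ n : Fin (r + 1) → ℕ, (∀ i, n i ∈ T) ∧ Dense r Q q n :=
  exists_primeU_of Helper60.ZE.card_primes_el

end Pool.Agent.Helper84.ZE
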